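import Pool.Agent.X171.ExtDelta

/-!
# An extreme Delta-point which is neither a ccs Delta-point nor a super Delta-point

Answer to Q1 of MP_0f3a14_an: no.

The example. Let `X` be the real Banach space of all `((a, f), (b, h), s)` with `a, b` real,
`f, h ∈ ℓ_∞` and `s ∈ c_0`, with the norm
`max (|a| + ‖f‖, |b| + ‖h‖, ‖s‖, |a + b| + sup_m 2 ^ (-m - 1) |b - a - s m|)`,
and `x = ((1/2, 1/2), (1/2, 1/2), 0)`.

* `x` is extreme: if `x ± u` are in the ball, the last part of the norm gives `s m = b - a` for all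
  `m` (for the coordinates of `u`), so that `a = b = 0` and `s = 0`, and then `f = h = 0`.
* `x` is a `Δ`-point: it is the limit of the means of the points `((0, 1 - 2 e_i), (1 - ε, 0), s_n)`
  and `((1 - ε, 0), (0, 1 - 2 e_i), -s_n)`, `i < n`, where `s_n = (1 - ε) 1_{[0, n)}`, `ε = 1 / n`;
  they are in the ball, at distance two from `x`.
* `x` is not a super `Δ`-point: the distance to `x` is at most `3 / 2` at the points of the ball with
  `|a - 1/2| < 1/8` and `|b - 1/2| < 1/8`. Hence it is not a ccs `Δ`-point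
  (`Pool.Agent.X171.CcsDelta.main`: every ccs `Δ`-point is a super `Δ`-point).
-/

set_option autoImplicit false

open Set Metric

namespace Pool.Agent.Results.MP_0f3a14_an.ExtremeDeltaPoint

variable (𝕜 : Type*) [RCLike 𝕜] {X : Type*} [NormedAddCommGroup X] [NormedSpace 𝕜 X]

/-- The slice `S(f, α)` of the closed unit ball (used for `f ≠ 0` and `α > 0`). -/
def slice (f : X →L[𝕜] 𝕜) (α : ℝ) : Set X := {y | ‖y‖ ≤ 1 ∧ ‖f‖ - α < RCLike.re (f y)}

/-- `C` is a convex combination of slices of the closed unit ball. -/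
def IsCcs (C : Set X) : Prop :=
  ∃ (n : ℕ) (l : Fin n → ℝ) (f : Fin n → (X →L[𝕜] 𝕜)) (α : Fin n → ℝ),
    (∀ i, 0 < l i) ∧ ∑ i, l i = 1 ∧ (∀ i, f i ≠ 0 ∧ 0 < α i) ∧
    C = {z | ∃ y : Fin n → X, (∀ i, y i ∈ slice 𝕜 (f i) (α i)) ∧ z = ∑ i, (l i : 𝕜) • y i}

/-- `W` is a relatively weakly open subset of the closed unit ball. -/
def IsRelWeaklyOpen (W : Set X) : Prop :=
  ∃ U : Set (WeakSpace 𝕜 X), IsOpen U ∧ W = closedBall 0 1 ∩ toWeakSpace 𝕜 X ⁻¹' U

/-- `x` is a `Δ`-point: `x` is in the unit sphere and the least upper bound of `‖x - y‖` over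
`y ∈ S` is `2` for every slice `S` which contains `x`. -/
def IsDelta (x : X) : Prop :=
  ‖x‖ = 1 ∧ ∀ (f : X →L[𝕜] 𝕜) (α : ℝ), f ≠ 0 → 0 < α → x ∈ slice 𝕜 f α →
    IsLUB ((fun y => ‖x - y‖) '' slice 𝕜 f α) 2

/-- `x` is a ccs `Δ`-point: the same for all convex combinations of slices which contain `x`. -/
def IsCcsDelta (x : X) : Prop :=
  ‖x‖ = 1 ∧ ∀ C : Set X, IsCcs 𝕜 C → x ∈ C → IsLUB ((fun y => ‖x - y‖) '' C) 2

/-- `x` is a super `Δ`-point: the same for all relatively weakly open subsets of the unit ball which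
contain `x`. -/
def IsSuperDelta (x : X) : Prop :=
  ‖x‖ = 1 ∧ ∀ W : Set X, IsRelWeaklyOpen 𝕜 W → x ∈ W → IsLUB ((fun y => ‖x - y‖) '' W) 2

/-- There is a real Banach space and an extreme point of its closed unit ball which is a `Δ`-point
but neither a ccs `Δ`-point nor a super `Δ`-point. -/
theorem result : ∃ (X : Type) (_ : NormedAddCommGroup X) (_ : NormedSpace ℝ X)
    (_ : CompleteSpace X) (x : X), x ∈ extremePoints ℝ (closedBall (0 : X) 1) ∧
      IsDelta ℝ x ∧ ¬ IsCcsDelta ℝ x ∧ ¬ IsSuperDelta ℝ x := by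
  have hsup : ¬ Pool.Agent.X171.CcsDelta.IsSuperDelta ℝ Pool.Agent.X171.ExtDelta.x0 := by
    rintro ⟨-, h⟩
    -- the coordinates
    let A : Pool.Agent.X171.ExtDelta.X →L[ℝ] ℝ :=
      (ContinuousLinearMap.fst ℝ ℝ Pool.Agent.X171.ExtDelta.Y) ∘L
        (ContinuousLinearMap.fst ℝ (ℝ × Pool.Agent.X171.ExtDelta.Y)
          ((ℝ × Pool.Agent.X171.ExtDelta.Y) × Pool.Agent.X171.ExtDelta.Z)) ∘L
        Pool.Agent.X171.ExtDelta.eC.toContinuousLinearMap
    let B : Pool.Agent.X171.ExtDelta.X →L[ℝ] ℝ :=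
      (ContinuousLinearMap.fst ℝ ℝ Pool.Agent.X171.ExtDelta.Y) ∘L
        (ContinuousLinearMap.fst ℝ (ℝ × Pool.Agent.X171.ExtDelta.Y) Pool.Agent.X171.ExtDelta.Z) ∘L
        (ContinuousLinearMap.snd ℝ (ℝ × Pool.Agent.X171.ExtDelta.Y)
          ((ℝ × Pool.Agent.X171.ExtDelta.Y) × Pool.Agent.X171.ExtDelta.Z)) ∘L
        Pool.Agent.X171.ExtDelta.eC.toContinuousLinearMap
    have hA : ∀ y, A y = y.v.1.1 := fun y => rfl
    have hB : ∀ y, B y = y.v.2.1.1 := fun y => rfl
    have cA : Continuous (fun y : WeakSpace ℝ Pool.Agent.X171.ExtDelta.X =>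
        A ((toWeakSpace ℝ _).symm y)) := WeakBilin.eval_continuous (topDualPairing ℝ _).flip A
    have cB : Continuous (fun y : WeakSpace ℝ Pool.Agent.X171.ExtDelta.X =>
        B ((toWeakSpace ℝ _).symm y)) := WeakBilin.eval_continuous (topDualPairing ℝ _).flip B
    have h1 := h (closedBall 0 1 ∩ toWeakSpace ℝ _ ⁻¹'
      ({y | |A ((toWeakSpace ℝ _).symm y) - 1 / 2| < 1 / 8} ∩
        {y | |B ((toWeakSpace ℝ _).symm y) - 1 / 2| < 1 / 8}))
      ⟨_, (isOpen_lt (cA.sub continuous_const).abs continuous_const).inter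
        (isOpen_lt (cB.sub continuous_const).abs continuous_const), rfl⟩
      ⟨by simp [Pool.Agent.X171.ExtDelta.norm_x0], by
        constructor
        · change |(1 / 2 : ℝ) - 1 / 2| < 1 / 8
          norm_num
        · change |(1 / 2 : ℝ) - 1 / 2| < 1 / 8
          norm_num⟩
    have h2 : (2 : ℝ) ≤ 3 / 2 := by
      apply h1.2
      rintro _ ⟨y, ⟨hy, ha, hb⟩, rfl⟩
      exact Pool.Agent.X171.ExtDelta.near_x0 (mem_closedBall_zero_iff.1 hy) ha hb
    norm_num at h2
  refine ⟨Pool.Agent.X171.ExtDelta.X, inferInstance, inferInstance, inferInstance,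
    Pool.Agent.X171.ExtDelta.x0, Pool.Agent.X171.ExtDelta.x0_ext, ?_, ?_, hsup⟩
  · refine ⟨Pool.Agent.X171.ExtDelta.norm_x0, ?_⟩
    intro f α _ _ hx
    constructor
    · rintro _ ⟨y, hy, rfl⟩
      have := norm_sub_le Pool.Agent.X171.ExtDelta.x0 y
      have h1 := hy.1
      have h2 := Pool.Agent.X171.ExtDelta.norm_x0
      simp only
      linarith
    · intro b hb
      obtain ⟨y, hy1, hy2, hy3⟩ := Pool.Agent.X171.ExtDelta.x0_delta f (c := ‖f‖ - α) hx.2
      exact hy3.trans (hb ⟨y, ⟨hy1, hy2⟩, rfl⟩)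
  · rintro ⟨h1, h2⟩
    apply hsup
    apply Pool.Agent.X171.CcsDelta.main
    refine ⟨h1, ?_⟩
    rintro C ⟨n, l, f, α, hn, hl, hl1, hf, hC⟩ hxC
    apply h2 C _ hxC
    refine ⟨n, l, f, α, hl, hl1, fun i => ⟨?_, (hf i).2⟩, ?_⟩
    · intro h0
      have := (hf i).1
      rw [h0, norm_zero] at this
      exact zero_ne_one this
    · rw [hC]
      have : ∀ i, slice ℝ (f i) (α i) = Pool.Agent.X171.CcsDelta.slice ℝ (f i) (α i) := by
        intro i
        rw [slice, (hf i).1]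
        rfl
      simp only [this]

end Pool.Agent.Results.MP_0f3a14_an.ExtremeDeltaPoint
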